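import Pool.Agent.J4H4.NG.Stm

/-!
# Project NG: (CH) Chebyshev in `(N, 2N]`
-/

set_option autoImplicit false

namespace Pool.Agent.J4H95.NG

open Finset Filter Pool.Agent.J4H4.NG

theorem ch_ev : ∃ N₀ : ℕ, ∀ N : ℕ, N₀ ≤ N →
    (Real.sqrt (2 * N) + 2) * Real.log (2 * N) ≤ (N : ℝ) / 10 := by
  have h1 := (isLittleO_log_rpow_atTop (by norm_num : (0 : ℝ) < 1 / 4)).bound
    (by norm_num : (0 : ℝ) < 1 / 60)
  have h2 : Tendsto (fun N : ℕ => (2 : ℝ) * N) atTop atTop :=
    tendsto_natCast_atTop_atTop.const_mul_atTop (by norm_num)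
  obtain ⟨N₀, hN₀⟩ := eventually_atTop.1 (h2.eventually h1)
  refine ⟨max N₀ 1, fun N hN => ?_⟩
  have h3 := hN₀ N (le_trans (le_max_left _ _) hN)
  have hN1 : (1 : ℝ) ≤ N := by exact_mod_cast le_trans (le_max_right _ _) hN
  obtain ⟨x, hx⟩ : ∃ x : ℝ, x = 2 * N := ⟨_, rfl⟩
  rw [← hx] at h3 ⊢
  have hx1 : 1 ≤ x := by linarith
  have hx0 : 0 ≤ x := by linarith
  rw [Real.norm_of_nonneg (Real.log_nonneg hx1), Real.norm_of_nonneg (by positivity)] at h3
  have h4 : 1 ≤ Real.sqrt x := Real.one_le_sqrt.2 hx1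
  have h5 : Real.sqrt x * x ^ ((1 : ℝ) / 4) ≤ x := by
    rw [Real.sqrt_eq_rpow, ← Real.rpow_add (by linarith)]
    calc x ^ ((1 : ℝ) / 2 + 1 / 4) ≤ x ^ (1 : ℝ) :=
          Real.rpow_le_rpow_of_exponent_le hx1 (by norm_num)
      _ = x := Real.rpow_one x
  have h6 : 0 ≤ x ^ ((1 : ℝ) / 4) := by positivity
  calc (Real.sqrt x + 2) * Real.log x ≤ (3 * Real.sqrt x) * (1 / 60 * x ^ ((1 : ℝ) / 4)) := by
        apply mul_le_mul (by linarith) h3 (Real.log_nonneg hx1) (by positivity)
    _ = 1 / 20 * (Real.sqrt x * x ^ ((1 : ℝ) / 4)) := by ring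
    _ ≤ 1 / 20 * x := by linarith
    _ = N / 10 := by rw [hx]; ring

theorem ch_main (N : ℕ) (hN : 3 ≤ N) : (N : ℝ) * Real.log 4 ≤
    (Real.sqrt (2 * N) + 2) * Real.log (2 * N) + Real.log 4 * (2 * N / 3) +
      (((Finset.Ioc N (2 * N)).filter Nat.Prime).card : ℝ) * Real.log (2 * N) := by
  have hN0 : (3 : ℝ) ≤ N := by exact_mod_cast hN
  have hL : 0 ≤ Real.log (2 * N) := Real.log_nonneg (by linarith)
  have hC := Nat.four_pow_le_two_mul_self_mul_centralBinom N (by omega)
  have hC1 : (N : ℝ) * Real.log 4 ≤ Real.log (2 * N) + Real.log (N.centralBinom : ℝ) := by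
    rw [← Real.log_mul (by linarith) (by exact_mod_cast (Nat.centralBinom_ne_zero N)),
      ← Real.log_pow]
    apply Real.log_le_log (by positivity)
    exact_mod_cast hC
  have hprod := Nat.prod_pow_factorization_centralBinom N
  have hlog : Real.log (N.centralBinom : ℝ) = ∑ p ∈ range (2 * N + 1),
      ((N.centralBinom.factorization p : ℕ) : ℝ) * Real.log p := by
    rw [← hprod]
    push_cast
    rw [Real.log_prod]
    · rw [hprod]
      exact sum_congr rfl fun p _ => Real.log_pow _ _
    · intro p hp h0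
      have h1 : N.centralBinom = 0 := by
        rw [← hprod]
        exact prod_eq_zero hp (by exact_mod_cast h0)
      exact Nat.centralBinom_ne_zero N h1
  have hs : (Nat.sqrt (2 * N) : ℝ) ≤ Real.sqrt (2 * N) := by
    have := Real.nat_sqrt_le_real_sqrt (a := 2 * N)
    push_cast at this
    exact this
  have hterm : ∀ p ∈ range (2 * N + 1), ((N.centralBinom.factorization p : ℕ) : ℝ) * Real.log p ≤
      (if p ≤ Nat.sqrt (2 * N) then Real.log (2 * N) else 0) +
      (if p ∈ (Ioc 0 ⌊(2 * N / 3 : ℝ)⌋₊).filter Nat.Prime then Real.log p else 0) +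
      (if p ∈ (Ioc N (2 * N)).filter Nat.Prime then Real.log (2 * N) else 0) := by
    intro p hp
    have hA : 0 ≤ (if p ≤ Nat.sqrt (2 * N) then Real.log (2 * N) else 0) := by
      split_ifs <;> simp [hL]
    have hB : 0 ≤ (if p ∈ (Ioc 0 ⌊(2 * N / 3 : ℝ)⌋₊).filter Nat.Prime then Real.log p else 0) := by
      split_ifs with h
      · exact Real.log_nonneg (by exact_mod_cast (mem_filter.1 h).2.one_le)
      · exact le_refl _
    have hD : 0 ≤ (if p ∈ (Ioc N (2 * N)).filter Nat.Prime then Real.log (2 * N) else 0) := by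
      split_ifs <;> simp [hL]
    by_cases hpp : p.Prime
    swap
    · rw [Nat.factorization_eq_zero_of_not_prime _ hpp]
      simp only [Nat.cast_zero, zero_mul]
      linarith
    have hp1 : (1 : ℝ) ≤ p := by exact_mod_cast hpp.one_le
    have hp2 : p ≤ 2 * N := by have := mem_range.1 hp; omega
    have hpL : Real.log p ≤ Real.log (2 * N) :=
      Real.log_le_log (by linarith) (by exact_mod_cast hp2)
    by_cases h1 : p ≤ Nat.sqrt (2 * N)
    · rw [if_pos h1]
      have h2 : p ^ (N.centralBinom.factorization p) ≤ 2 * N :=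
        Nat.pow_factorization_choose_le (by omega)
      have h3 : ((N.centralBinom.factorization p : ℕ) : ℝ) * Real.log p ≤ Real.log (2 * N) := by
        rw [← Real.log_pow]
        apply Real.log_le_log (by positivity)
        exact_mod_cast h2
      linarith
    · have h2 : N.centralBinom.factorization p ≤ 1 :=
        Nat.factorization_choose_le_one (Nat.sqrt_lt'.1 (not_le.1 h1))
      have h3 : ((N.centralBinom.factorization p : ℕ) : ℝ) ≤ 1 := by exact_mod_cast h2
      have h4 : ((N.centralBinom.factorization p : ℕ) : ℝ) * Real.log p ≤ Real.log p := by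
        have := mul_le_mul_of_nonneg_right h3 (Real.log_nonneg hp1)
        linarith
      by_cases h5 : N < p
      · have h6 : p ∈ (Ioc N (2 * N)).filter Nat.Prime := by
          rw [mem_filter, mem_Ioc]
          exact ⟨⟨h5, hp2⟩, hpp⟩
        rw [if_pos h6]
        linarith
      · by_cases h6 : 2 * N < 3 * p
        · rw [Nat.factorization_centralBinom_of_two_mul_self_lt_three_mul (by omega)
            (not_lt.1 h5) h6]
          simp only [Nat.cast_zero, zero_mul]
          linarith
        · have h7 : p ∈ (Ioc 0 ⌊(2 * N / 3 : ℝ)⌋₊).filter Nat.Prime := by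
            rw [mem_filter, mem_Ioc]
            refine ⟨⟨hpp.pos, Nat.le_floor ?_⟩, hpp⟩
            rw [le_div_iff₀ (by norm_num)]
            have : ((3 * p : ℕ) : ℝ) ≤ ((2 * N : ℕ) : ℝ) := by exact_mod_cast not_lt.1 h6
            push_cast at this
            linarith
          rw [if_pos h7]
          linarith
  have hsum := sum_le_sum hterm
  rw [sum_add_distrib, sum_add_distrib] at hsum
  have e1 : ∑ p ∈ range (2 * N + 1), (if p ≤ Nat.sqrt (2 * N) then Real.log (2 * N) else 0) ≤
      (Real.sqrt (2 * N) + 1) * Real.log (2 * N) := by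
    rw [← sum_filter, sum_const, nsmul_eq_mul]
    refine mul_le_mul_of_nonneg_right ?_ hL
    have : ((range (2 * N + 1)).filter (fun p => p ≤ Nat.sqrt (2 * N))).card ≤
        Nat.sqrt (2 * N) + 1 := by
      refine (card_le_card (t := range (Nat.sqrt (2 * N) + 1)) ?_).trans (by simp)
      intro p hp
      rw [mem_filter] at hp
      rw [mem_range]
      omega
    have h2 : (((range (2 * N + 1)).filter (fun p => p ≤ Nat.sqrt (2 * N))).card : ℝ) ≤
        Nat.sqrt (2 * N) + 1 := by exact_mod_cast this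
    linarith
  have e2 : ∑ p ∈ range (2 * N + 1), (if p ∈ (Ioc 0 ⌊(2 * N / 3 : ℝ)⌋₊).filter Nat.Prime then
      Real.log p else 0) ≤ Real.log 4 * (2 * N / 3) := by
    refine le_trans ?_ (Chebyshev.theta_le_log4_mul_x (x := 2 * N / 3) (by positivity))
    rw [← sum_filter]
    unfold Chebyshev.theta
    refine sum_le_sum_of_subset_of_nonneg ?_ ?_
    · intro p hp
      exact (mem_filter.1 hp).2
    · intro p hp _
      exact Real.log_nonneg (by exact_mod_cast (mem_filter.1 hp).2.one_le)
  have e3 : ∑ p ∈ range (2 * N + 1), (if p ∈ (Ioc N (2 * N)).filter Nat.Prime then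
      Real.log (2 * N) else 0) ≤
      (((Finset.Ioc N (2 * N)).filter Nat.Prime).card : ℝ) * Real.log (2 * N) := by
    rw [← sum_filter, sum_const, nsmul_eq_mul]
    refine mul_le_mul_of_nonneg_right ?_ hL
    have : ((range (2 * N + 1)).filter (fun p => p ∈ (Ioc N (2 * N)).filter Nat.Prime)).card ≤
        ((Finset.Ioc N (2 * N)).filter Nat.Prime).card := by
      refine card_le_card ?_
      intro p hp
      exact (mem_filter.1 hp).2
    exact_mod_cast this
  rw [hlog] at hC1
  linarith

theorem t_CH : S_CH := by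
  obtain ⟨N₀, hN₀⟩ := ch_ev
  have hl2 : 0 < Real.log 2 := Real.log_pos (by norm_num)
  refine ⟨min (1 / 8) (Real.log 2 / (N₀ + 3)), lt_min (by norm_num) (by positivity), fun N hN => ?_⟩
  have hN2 : (2 : ℝ) ≤ N := by exact_mod_cast hN
  have hlN : Real.log 2 ≤ Real.log N := Real.log_le_log (by norm_num) hN2
  have hlN0 : 0 < Real.log N := by linarith
  rw [div_le_iff₀ hlN0]
  by_cases h : N₀ + 3 ≤ N
  · have h1 := hN₀ N (by omega)
    have h2 := ch_main N (by omega)
    have h3 : Real.log (2 * N) ≤ 2 * Real.log N := by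
      rw [Real.log_mul (by norm_num) (by linarith)]
      linarith
    have h4 : Real.log 4 = 2 * Real.log 2 := by
      rw [show (4 : ℝ) = 2 ^ 2 by norm_num, Real.log_pow]
      push_cast
      ring
    have h5 := Real.log_two_gt_d9
    have h6 : (0 : ℝ) ≤ (((Finset.Ioc N (2 * N)).filter Nat.Prime).card : ℝ) := by positivity
    have h7 := mul_le_mul_of_nonneg_left h3 h6
    have h8 : min (1 / 8) (Real.log 2 / (N₀ + 3)) * (N : ℝ) ≤ 1 / 8 * N :=
      mul_le_mul_of_nonneg_right (min_le_left _ _) (by linarith)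
    rw [h4] at h2
    nlinarith
  · have h1 : (N : ℝ) ≤ N₀ + 3 := by
      have : N ≤ N₀ + 3 := by omega
      exact_mod_cast this
    obtain ⟨p, hp, hp1, hp2⟩ := Nat.exists_prime_lt_and_le_two_mul N (by omega)
    have h2 : 1 ≤ ((Finset.Ioc N (2 * N)).filter Nat.Prime).card :=
      card_pos.2 ⟨p, by rw [mem_filter, mem_Ioc]; exact ⟨⟨hp1, hp2⟩, hp⟩⟩
    have h3 : (1 : ℝ) ≤ (((Finset.Ioc N (2 * N)).filter Nat.Prime).card : ℝ) := by exact_mod_cast h2
    have h4 : min (1 / 8) (Real.log 2 / (N₀ + 3)) * (N : ℝ) ≤ Real.log 2 := by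
      calc min (1 / 8) (Real.log 2 / (N₀ + 3)) * (N : ℝ) ≤ Real.log 2 / (N₀ + 3) * (N₀ + 3) := by
            apply mul_le_mul (min_le_right _ _) h1 (by linarith) (by positivity)
        _ = Real.log 2 := by field_simp
    nlinarith

end Pool.Agent.J4H95.NG
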