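import Pool.Agent.J4H4.NG.Stm

/-!
# Project NG: (RC) rough numbers in short intervals
-/

set_option autoImplicit false

namespace Pool.Agent.J4H95.NG

open Finset Filter Pool.Agent.J4H4.NG

theorem totient_small (ε : ℝ) (hε : 0 < ε) : ∃ z : ℕ,
    ((primorial z).totient : ℝ) ≤ ε * (primorial z : ℝ) := by
  have h1 := (not_summable_iff_tendsto_nat_atTop_of_nonneg (f := Set.indicator {p : ℕ | p.Prime}
    (fun n : ℕ => (1 : ℝ) / n)) (fun n => Set.indicator_nonneg (fun _ _ => by positivity) n)).1
    not_summable_one_div_on_primes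
  obtain ⟨z, hz⟩ := ((tendsto_atTop.1 h1 (- Real.log ε)).and (eventually_ge_atTop 1)).exists
  refine ⟨z, ?_⟩
  have hpf : (primorial z).primeFactors = (range (z + 1)).filter Nat.Prime := by
    rw [primorial]
    exact Nat.primeFactors_prod (fun p hp => (mem_filter.1 hp).2)
  have h2 : ((primorial z).totient : ℝ) = (primorial z : ℝ) *
      ∏ p ∈ (range (z + 1)).filter Nat.Prime, (1 - (p : ℝ)⁻¹) := by
    have h := Nat.totient_eq_mul_prod_factors (primorial z)
    rw [hpf] at h
    have h' := congrArg (fun q : ℚ => (q : ℝ)) h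
    push_cast at h'
    exact h'
  have h3 : ∏ p ∈ (range (z + 1)).filter Nat.Prime, (1 - (p : ℝ)⁻¹) ≤ ε := by
    calc ∏ p ∈ (range (z + 1)).filter Nat.Prime, (1 - (p : ℝ)⁻¹)
        ≤ ∏ p ∈ (range (z + 1)).filter Nat.Prime, Real.exp (-(p : ℝ)⁻¹) := by
          refine prod_le_prod (fun p hp => ?_) (fun p _ => ?_)
          · have : (1 : ℝ) ≤ p := by exact_mod_cast (mem_filter.1 hp).2.one_le
            have := inv_le_one_of_one_le₀ this
            linarith
          · have := Real.add_one_le_exp (-(p : ℝ)⁻¹)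
            linarith
      _ = Real.exp (-∑ p ∈ (range (z + 1)).filter Nat.Prime, (p : ℝ)⁻¹) := by
          rw [← Real.exp_sum, sum_neg_distrib]
      _ ≤ Real.exp (Real.log ε) := by
          apply Real.exp_le_exp.2
          have h4 : ∑ i ∈ range z, Set.indicator {p : ℕ | p.Prime} (fun n : ℕ => (1 : ℝ) / n) i ≤
              ∑ p ∈ (range (z + 1)).filter Nat.Prime, (p : ℝ)⁻¹ := by
            rw [sum_filter]
            refine le_trans (sum_le_sum_of_subset_of_nonneg (range_subset_range.2 (Nat.le_succ z))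
              (fun i _ _ => Set.indicator_nonneg (fun _ _ => by positivity) i)) ?_
            refine sum_le_sum fun i _ => ?_
            by_cases hi : i.Prime
            · rw [Set.indicator_of_mem (by exact hi), if_pos hi, one_div]
            · rw [Set.indicator_of_notMem (by exact hi), if_neg hi]
          linarith [hz.1]
      _ = ε := Real.exp_log hε
  rw [h2, mul_comm]
  exact mul_le_mul_of_nonneg_right h3 (by positivity)

theorem t_RC : S_RC := by
  intro ε hε
  obtain ⟨z, hz⟩ := totient_small (ε / 2) (by positivity)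
  have hP : 0 < primorial z := primorial_pos z
  have hP' : (0 : ℝ) < primorial z := by exact_mod_cast hP
  refine ⟨z, 1 + primorial z, by positivity, fun x h hh S hS => ?_⟩
  have hh0 : 0 ≤ h := by linarith
  have hsub : S ⊆ (Ico ⌈x⌉₊ (⌈x⌉₊ + (⌊h⌋₊ + 1))).filter (primorial z).Coprime := by
    intro k hk
    obtain ⟨h1, h2, h3⟩ := hS k hk
    rw [mem_filter, mem_Ico]
    refine ⟨⟨Nat.ceil_le.2 h2.le, ?_⟩, ?_⟩
    · have h4 : (k : ℝ) < (⌈x⌉₊ + (⌊h⌋₊ + 1) : ℕ) := by
        push_cast
        have := Nat.le_ceil x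
        have := Nat.lt_floor_add_one h
        linarith
      exact_mod_cast h4
    · rw [primorial]
      exact Nat.Coprime.prod_left fun q hq =>
        (Nat.Prime.coprime_iff_not_dvd (mem_filter.1 hq).2).2
          (h1 q (mem_filter.1 hq).2 (by have := mem_range.1 (mem_filter.1 hq).1; omega))
  have h5 : S.card ≤ (primorial z).totient * ((⌊h⌋₊ + 1) / primorial z + 1) :=
    (card_le_card hsub).trans (Nat.Ico_filter_coprime_le _ _ hP.ne')
  have h6 : (((⌊h⌋₊ + 1) / primorial z : ℕ) : ℝ) ≤ (h + 1) / primorial z := by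
    refine (Nat.cast_div_le).trans ?_
    push_cast
    gcongr
    exact Nat.floor_le hh0
  calc (S.card : ℝ) ≤ ((primorial z).totient * ((⌊h⌋₊ + 1) / primorial z + 1) : ℕ) := by
        exact_mod_cast h5
    _ = ((primorial z).totient : ℝ) * ((((⌊h⌋₊ + 1) / primorial z : ℕ) : ℝ) + 1) := by push_cast; ring
    _ ≤ (ε / 2 * primorial z) * ((h + 1) / primorial z + 1) := by
        apply mul_le_mul hz (by linarith) (by positivity) (by positivity)
    _ = ε / 2 * (h + 1 + primorial z) := by
        field_simp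
    _ ≤ ε * h := by nlinarith

end Pool.Agent.J4H95.NG
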